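import Mathlib

/-!
A proper `q ^ (n - d + 1)`-colouring of the Hamming-distance graph `H_q(n, d)` with a transition
edge, for `q = 3`, `n = 13`, `d = 3`.

The ternary Hamming code of length `13` is perfect with redundancy `3`, so the `3 ^ 10` balls of
radius `1` about its codewords partition the space; each ball has diameter `2 < d`, hence
`3 ^ 10` colours suffice, while `q ^ (n - d + 1) = 3 ^ 11`.  Two of the unused colours are given
to two adjacent vertices, and these form a transition edge.
-/

set_option autoImplicit false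

namespace Pool.Agent.Results.MP_3553b5_co.HammingCounterexample

/-- The Hamming-distance graph `H_q(n, d)`: vertices are the words of length `n` over `ZMod q`,
two words are adjacent iff their Hamming distance is at least `d` (and they are distinct, which is
automatic for `d ≥ 1`). -/
def hammingGraph (q n d : ℕ) : SimpleGraph (Fin n → ZMod q) where
  Adj x y := x ≠ y ∧ d ≤ hammingDist x y
  symm := by
    constructor
    rintro x y ⟨h1, h2⟩
    exact ⟨h1.symm, by rwa [hammingDist_comm]⟩
  loopless := by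
    constructor
    rintro x ⟨h1, _⟩
    exact h1 rfl

/-- `K` is a proper colouring of `G`. -/
def IsProper {V C : Type} (G : SimpleGraph V) (K : V → C) : Prop :=
  ∀ x y, G.Adj x y → K x ≠ K y

/-- The edge `x y` is a transition edge for `K`: exchanging the colours of `x` and `y` gives a
proper colouring again. -/
def IsTransitionEdge {V C : Type} [DecidableEq V] (G : SimpleGraph V) (K : V → C) (x y : V) :
    Prop :=
  G.Adj x y ∧ IsProper G (K ∘ Equiv.swap x y)

/-! ### The Hamming code of length 13 -/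

/-- The columns of the parity check matrix. -/
def col : Fin 13 → ZMod 3 × ZMod 3 × ZMod 3 :=
  ![(1, 0, 0), (0, 1, 0), (0, 0, 1), (0, 1, 1), (0, 1, 2), (1, 0, 1), (1, 0, 2), (1, 1, 0),
    (1, 1, 1), (1, 1, 2), (1, 2, 0), (1, 2, 1), (1, 2, 2)]

/-- The syndrome. -/
def syn (x : Fin 13 → ZMod 3) : ZMod 3 × ZMod 3 × ZMod 3 := ∑ j, x j • col j

lemma cover : ∀ s : ZMod 3 × ZMod 3 × ZMod 3, ∃ j : Fin 13, ∃ a : ZMod 3, s = a • col j := by
  decide

lemma syn_sub (x y : Fin 13 → ZMod 3) : syn (x - y) = syn x - syn y := by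
  unfold syn
  rw [← Finset.sum_sub_distrib]
  refine Finset.sum_congr rfl (fun j _ => ?_)
  rw [Pi.sub_apply, sub_smul]

lemma syn_single (j : Fin 13) (a : ZMod 3) : syn (Pi.single j a) = a • col j := by
  unfold syn
  rw [Finset.sum_eq_single j]
  · rw [Pi.single_eq_same]
  · intro i _ hi
    rw [Pi.single_eq_of_ne hi, zero_smul]
  · intro h
    exact absurd (Finset.mem_univ j) h

/-- Position of the error. -/
noncomputable def pos (s : ZMod 3 × ZMod 3 × ZMod 3) : Fin 13 := (cover s).choose

/-- Value of the error. -/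
noncomputable def val (s : ZMod 3 × ZMod 3 × ZMod 3) : ZMod 3 := (cover s).choose_spec.choose

lemma val_spec (s : ZMod 3 × ZMod 3 × ZMod 3) : s = val s • col (pos s) :=
  (cover s).choose_spec.choose_spec

/-- The nearest codeword. -/
noncomputable def dec (x : Fin 13 → ZMod 3) : Fin 13 → ZMod 3 :=
  x - Pi.single (pos (syn x)) (val (syn x))

lemma syn_dec (x : Fin 13 → ZMod 3) : syn (dec x) = 0 := by
  unfold dec
  rw [syn_sub, syn_single, ← val_spec, sub_self]

lemma dec_of_ne (x : Fin 13 → ZMod 3) (i : Fin 13) (h : i ≠ pos (syn x)) : dec x i = x i := by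
  unfold dec
  rw [Pi.sub_apply, Pi.single_eq_of_ne h, sub_zero]

lemma dist_le (x y : Fin 13 → ZMod 3) (h : dec x = dec y) : hammingDist x y ≤ 2 := by
  unfold hammingDist
  have hsub : (Finset.univ.filter fun i => x i ≠ y i) ⊆ {pos (syn x), pos (syn y)} := by
    intro i hi
    rw [Finset.mem_filter] at hi
    by_contra hcon
    rw [Finset.mem_insert, Finset.mem_singleton, not_or] at hcon
    apply hi.2
    rw [← dec_of_ne x i hcon.1, ← dec_of_ne y i hcon.2, h]
  exact (Finset.card_le_card hsub).trans Finset.card_le_two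

/-- The information symbols of the nearest codeword. -/
noncomputable def info (x : Fin 13 → ZMod 3) : Fin 10 → ZMod 3 := fun i => dec x (Fin.natAdd 3 i)

lemma eq_zero_of (w : Fin 13 → ZMod 3) (h : syn w = 0) (h2 : ∀ i : Fin 10, w (Fin.natAdd 3 i) = 0) :
    w = 0 := by
  have h3 : w 3 = 0 := h2 0
  have h4 : w 4 = 0 := h2 1
  have h5 : w 5 = 0 := h2 2
  have h6 : w 6 = 0 := h2 3
  have h7 : w 7 = 0 := h2 4
  have h8 : w 8 = 0 := h2 5
  have h9 : w 9 = 0 := h2 6
  have h10 : w 10 = 0 := h2 7
  have h11 : w 11 = 0 := h2 8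
  have h12 : w 12 = 0 := h2 9
  have hs : syn w = w 0 • col 0 + w 1 • col 1 + w 2 • col 2 := by
    unfold syn
    rw [Fin.sum_univ_castSucc, Fin.sum_univ_castSucc, Fin.sum_univ_castSucc,
      Fin.sum_univ_castSucc, Fin.sum_univ_castSucc, Fin.sum_univ_castSucc,
      Fin.sum_univ_castSucc, Fin.sum_univ_castSucc, Fin.sum_univ_castSucc,
      Fin.sum_univ_castSucc, Fin.sum_univ_three]
    have e3 : w (Fin.last 12) = 0 := h12
    have e4 : w (Fin.castSucc (Fin.last 11)) = 0 := h11
    have e5 : w (Fin.castSucc (Fin.castSucc (Fin.last 10))) = 0 := h10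
    have e6 : w (Fin.castSucc (Fin.castSucc (Fin.castSucc (Fin.last 9)))) = 0 := h9
    have e7 : w (Fin.castSucc (Fin.castSucc (Fin.castSucc (Fin.castSucc (Fin.last 8))))) = 0 := h8
    have e8 : w (Fin.castSucc (Fin.castSucc (Fin.castSucc (Fin.castSucc
      (Fin.castSucc (Fin.last 7)))))) = 0 := h7
    have e9 : w (Fin.castSucc (Fin.castSucc (Fin.castSucc (Fin.castSucc
      (Fin.castSucc (Fin.castSucc (Fin.last 6))))))) = 0 := h6
    have e10 : w (Fin.castSucc (Fin.castSucc (Fin.castSucc (Fin.castSucc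
      (Fin.castSucc (Fin.castSucc (Fin.castSucc (Fin.last 5)))))))) = 0 := h5
    have e11 : w (Fin.castSucc (Fin.castSucc (Fin.castSucc (Fin.castSucc
      (Fin.castSucc (Fin.castSucc (Fin.castSucc (Fin.castSucc (Fin.last 4))))))))) = 0 := h4
    have e12 : w (Fin.castSucc (Fin.castSucc (Fin.castSucc (Fin.castSucc
      (Fin.castSucc (Fin.castSucc (Fin.castSucc (Fin.castSucc
        (Fin.castSucc (Fin.last 3)))))))))) = 0 := h3
    rw [e3, e4, e5, e6, e7, e8, e9, e10, e11, e12]
    simp only [zero_smul, add_zero]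
    rfl
  rw [h] at hs
  have h0 : w 0 = 0 ∧ w 1 = 0 ∧ w 2 = 0 := by
    have key : ∀ a b c : ZMod 3, (0 : ZMod 3 × ZMod 3 × ZMod 3) = a • col 0 + b • col 1 + c • col 2 →
        a = 0 ∧ b = 0 ∧ c = 0 := by decide
    exact key _ _ _ hs
  obtain ⟨h0, h1, h2'⟩ := h0
  funext i
  fin_cases i <;> assumption

lemma dec_eq_of_info (x y : Fin 13 → ZMod 3) (h : info x = info y) : dec x = dec y := by
  have h1 : dec x - dec y = 0 := by
    apply eq_zero_of
    · rw [syn_sub, syn_dec, syn_dec, sub_zero]
    · intro i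
      have := congrFun h i
      unfold info at this
      rw [Pi.sub_apply, this, sub_self]
  exact sub_eq_zero.1 h1

/-! ### The colouring -/

/-- Numbering of the colours of the basic colouring. -/
noncomputable def num : (Fin 10 → ZMod 3) ≃ Fin (3 ^ 10) :=
  Fintype.equivFinOfCardEq (by simp [ZMod.card])

/-- The basic colouring, which only uses colours below `3 ^ 10`. -/
noncomputable def base (x : Fin 13 → ZMod 3) : Fin (3 ^ (13 - 3 + 1)) :=
  ⟨(num (info x)).val, lt_of_lt_of_le (num (info x)).isLt (by norm_num)⟩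

/-- Recolour two vertices. -/
noncomputable def recol (a b : Fin (3 ^ (13 - 3 + 1))) (x : Fin 13 → ZMod 3) :
    Fin (3 ^ (13 - 3 + 1)) :=
  if x = 0 then a else if x = 1 then b else base x

lemma base_proper : IsProper (hammingGraph 3 13 3) base := by
  rintro x y ⟨_, h⟩ heq
  have h0 : (base x).val = (base y).val := congrArg Fin.val heq
  have h1 : (num (info x)).val = (num (info y)).val := h0
  have h2 : info x = info y := num.injective (Fin.ext h1)
  have h3 := dist_le x y (dec_eq_of_info x y h2)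
  omega

lemma recol_proper (a b : Fin (3 ^ (13 - 3 + 1))) (hab : a ≠ b) (ha : 3 ^ 10 ≤ a.val)
    (hb : 3 ^ 10 ≤ b.val) : IsProper (hammingGraph 3 13 3) (recol a b) := by
  intro x y hxy
  have hba : ∀ z, base z ≠ a := by
    intro z hz
    have h1 : (base z).val < 3 ^ 10 := (num (info z)).isLt
    rw [hz] at h1
    omega
  have hbb : ∀ z, base z ≠ b := by
    intro z hz
    have h1 : (base z).val < 3 ^ 10 := (num (info z)).isLt
    rw [hz] at h1
    omega
  unfold recol
  by_cases hx0 : x = 0
  · by_cases hy0 : y = 0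
    · exact absurd (hx0.trans hy0.symm) hxy.1
    · by_cases hy1 : y = 1
      · rw [if_pos hx0, if_neg hy0, if_pos hy1]
        exact hab
      · rw [if_pos hx0, if_neg hy0, if_neg hy1]
        exact (hba y).symm
  · by_cases hx1 : x = 1
    · by_cases hy0 : y = 0
      · rw [if_neg hx0, if_pos hx1, if_pos hy0]
        exact hab.symm
      · by_cases hy1 : y = 1
        · exact absurd (hx1.trans hy1.symm) hxy.1
        · rw [if_neg hx0, if_pos hx1, if_neg hy0, if_neg hy1]
          exact (hbb y).symm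
    · by_cases hy0 : y = 0
      · rw [if_neg hx0, if_neg hx1, if_pos hy0]
        exact hba x
      · by_cases hy1 : y = 1
        · rw [if_neg hx0, if_neg hx1, if_neg hy0, if_pos hy1]
          exact hbb x
        · rw [if_neg hx0, if_neg hx1, if_neg hy0, if_neg hy1]
          exact base_proper x y hxy

lemma recol_swap (a b : Fin (3 ^ (13 - 3 + 1))) :
    recol a b ∘ Equiv.swap (0 : Fin 13 → ZMod 3) 1 = recol b a := by
  have h01 : (1 : Fin 13 → ZMod 3) ≠ 0 := by
    intro h
    have := congrFun h 0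
    revert this
    decide
  funext x
  rw [Function.comp_apply]
  by_cases hx0 : x = 0
  · rw [hx0, Equiv.swap_apply_left]
    unfold recol
    rw [if_neg h01, if_pos rfl, if_pos rfl]
  · by_cases hx1 : x = 1
    · rw [hx1, Equiv.swap_apply_right]
      unfold recol
      rw [if_pos rfl, if_neg h01, if_pos rfl]
    · rw [Equiv.swap_apply_of_ne_of_ne hx0 hx1]
      unfold recol
      rw [if_neg hx0, if_neg hx1, if_neg hx0, if_neg hx1]

/-- There are `q ≥ 3` and `2 ≤ d ≤ n` and a proper `q ^ (n - d + 1)`-colouring of `H_q(n, d)` that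
has a transition edge, namely `(q, n, d) = (3, 13, 3)`. -/
theorem result : ∃ q n d : ℕ, 3 ≤ q ∧ 2 ≤ d ∧ d ≤ n ∧
    ∃ K : (Fin n → ZMod q) → Fin (q ^ (n - d + 1)), IsProper (hammingGraph q n d) K ∧
      ∃ x y, IsTransitionEdge (hammingGraph q n d) K x y := by
  have ha : 3 ^ 10 < 3 ^ (13 - 3 + 1) := by norm_num
  have hb : 3 ^ 10 + 1 < 3 ^ (13 - 3 + 1) := by norm_num
  have hne : (⟨3 ^ 10, ha⟩ : Fin (3 ^ (13 - 3 + 1))) ≠ ⟨3 ^ 10 + 1, hb⟩ := by
    intro h
    have := congrArg Fin.val h
    simp at this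
  refine ⟨3, 13, 3, le_refl _, by norm_num, by norm_num, recol ⟨3 ^ 10, ha⟩ ⟨3 ^ 10 + 1, hb⟩,
    recol_proper _ _ hne (le_refl _) (Nat.le_succ _), 0, 1, ⟨?_, ?_⟩, ?_⟩
  · intro h
    have := congrFun h 0
    revert this
    decide
  · decide
  · rw [recol_swap]
    exact recol_proper _ _ hne.symm (Nat.le_succ _) (le_refl _)

end Pool.Agent.Results.MP_3553b5_co.HammingCounterexample
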